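import Pool.Agent.Lib_helper99.FGA.Wanted
import Pool.Agent.Lib_helper59.MF.Defs
import Pool.Agent.Lib_helper26.XS.Defs

/-!
# AAX: the Friedlander-Goldston asymptotic for almost all moduli in a half-plane without zeros,
the circle part. Definitions

The windows are narrower than in FGP: `K` may be as large as `N^(2/5)`, and the length of the window
of the fraction `c / r` is proportional to `r`.
-/

set_option autoImplicit false

namespace Pool.Agent.AAX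

open Finset Pool.Agent.Var35 Pool.Agent.Var73 Pool.Agent.PV Pool.Agent.FGP Pool.Agent.FGA
open scoped ArithmeticFunction ArithmeticFunction.Moebius

/-! ## The windows -/

/-- the unit of length of the windows -/
noncomputable def lw (N K : ℕ) : ℕ := ⌊(N : ℝ) / (K * Real.log N ^ 2)⌋₊

/-- the window of the denominator `r`: the fourth power of the Fejer kernel of length `r * lw N K` -/
noncomputable def Wr (N K r : ℕ) (b : ℝ) : ℝ :=
  (‖Dk (r * lw N K) b‖ / ((r * lw N K : ℕ) : ℝ)) ^ 8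

/-- its coefficients -/
noncomputable def vr (N K r : ℕ) (m : ℤ) : ℝ :=
  (((Fintype.piFinset (fun _ : Fin 8 => range (r * lw N K))).filter (fun f : Fin 8 → ℕ =>
    ((f 0 : ℤ) + f 1 + f 2 + f 3) - (f 4 + f 5 + f 6 + f 7) = m)).card : ℝ) /
      ((r * lw N K : ℕ) : ℝ) ^ 8

/-! ## The decomposition `Ps = fh + gh + Fh` -/

/-- the multiplier -/
noncomputable def Wt (N K : ℕ) (t : ℝ) : ℝ := ∑ r ∈ Icc 1 K, ∑ c ∈ Cd r, Wr N K r (t - c / r)

/-- the part of `Ps` which is small everywhere -/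
noncomputable def fh (N K : ℕ) (t : ℝ) : ℂ := Ps N t * ((1 - Wt N K t : ℝ) : ℂ)

/-- the explicit part -/
noncomputable def gh (N K : ℕ) (t : ℝ) : ℂ :=
  ∑ r ∈ Icc 1 K, ∑ c ∈ Cd r, ((mr r * Wr N K r (t - c / r) : ℝ) : ℂ) * In N (t - c / r)

/-- the part controlled by the zeros (`Xc N c r t = Ps N t - mr r * In N (t - c / r)`) -/
noncomputable def Fh (N K : ℕ) (t : ℝ) : ℂ :=
  ∑ r ∈ Icc 1 K, ∑ c ∈ Cd r, ((Wr N K r (t - c / r) : ℝ) : ℂ) * Xc N c r t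

/-! ## The coefficients of `gh` -/

/-- the interval `[1, N]`, smoothed -/
noncomputable def Ar (N K r : ℕ) (n : ℤ) : ℝ := ∑ m ∈ Icc 1 N, vr N K r ((m : ℤ) - n)

/-- the coefficients of `gh` (`cZ r n = ∑_{c ∈ Cd r} cos (2π c n / r)`) -/
noncomputable def gn (N K : ℕ) (n : ℤ) : ℝ := ∑ r ∈ Icc 1 K, Ar N K r n * (mr r * cZ r n)

/-- their correlations -/
noncomputable def cg (N K : ℕ) (h : ℤ) : ℝ :=
  ∑ n ∈ Icc (1 - (N : ℤ)) (2 * N), gn N K n * gn N K (n + h)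

/-! ## The mass -/

/-- the weight `(1 + (L b)²)⁻⁴` -/
noncomputable def uw (L b : ℝ) : ℝ := 1 / (1 + (L * b) ^ 2) ^ 4

/-- the mass on the arcs -/
noncomputable def msT (N K : ℕ) : ℝ :=
  ∑ r ∈ Icc 1 K, ∫ b in (-(1 / 2 : ℝ))..(1 / 2),
    Wr N K r b * ∑ c ∈ Cd r, ‖Ps N (c / r + b) - ((mr r : ℝ) : ℂ) * In N b‖ ^ 2

/-- the energy of the modulus `q` -/
noncomputable def Eg (N K q : ℕ) : ℝ :=
  ∫ b in (-(1 / 2 : ℝ))..(1 / 2), uw ((q * lw N K : ℕ) : ℝ) b *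
    Tp (fun n => (aS N n : ℂ) * e (n * b)) N q

/-- the energy of the principal characters -/
noncomputable def Eg1 (N K : ℕ) : ℝ :=
  ∫ b in (-(1 / 2 : ℝ))..(1 / 2), uw ((lw N K : ℕ) : ℝ) b * ‖Ps N b - In N b‖ ^ 2

/-! ## Ranges -/

/-- ranges of the parameters -/
structure Rg (K N : ℕ) : Prop where
  hK : 10 ≤ K
  hN : K ^ 5 ≤ N ^ 2

/-- ranges of the moduli -/
structure RY (e : ℝ) (K N Y : ℕ) : Prop where
  hY1 : 1 ≤ Y
  hYN : Y ≤ N
  hY : (N : ℝ) ^ (2 + e) ≤ (Y : ℝ) ^ 2 * K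

/-- the asymptotic formula for almost all moduli, for `X^(κ+ε) ≤ Y = o(X)` -/
def AlmostEvery (κ : ℝ) : Prop :=
  ∀ ε : ℝ, 0 < ε → ∀ η : ℝ, 0 < η → ∃ C : ℝ, ∀ (X : ℝ) (Y : ℕ), C ≤ X → X ^ (κ + ε) ≤ (Y : ℝ) →
    C * (Y : ℝ) ≤ X →
    ∑ Q ∈ Icc 1 Y, |HC.GX X Q - X * (Real.log Q - HC.CQ Q)| ≤ η * X * Y

end Pool.Agent.AAX
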